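import Mathlib
import Pool.Agent.Q260.BC.Defs
import Pool.Agent.Q260.BC.Paths
import Pool.Agent.Q260.BC.Bip
import Pool.Agent.Q260.BC.Upper

/-! The supremum of `IR_b / Γ_b` over connected bipartite graphs is `2` and is not attained. -/

namespace Pool.Agent.Results.MP_1867c4_co.BipartiteRatio

open Pool.Agent.Q260.BC

/-- the set of the ratios `IR_b(G) / Γ_b(G)` over all finite connected bipartite graphs `G` with
at least two vertices -/
def ratios : Set ℝ :=
  {r | ∃ (V : Type) (_ : Fintype V) (G : SimpleGraph V), G.Connected ∧ Nontrivial V ∧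
    G.Colorable 2 ∧ r = (upperIrredundance G : ℝ) / (upperBroadcast G : ℝ)}

lemma ir_lt {V : Type} [Fintype V] [Nontrivial V] {G : SimpleGraph V} (hG : G.Connected)
    (hc : G.Colorable 2) : upperIrredundance G < 2 * upperBroadcast G := by
  have h1 := half_le hG hc
  have h2 : upperIrredundance G + 1 ≤ Fintype.card V := by
    have h3 : upperIrredundance G ∈ irCosts G := by
      apply Nat.sSup_mem _ (irCosts_bddAbove hG)
      refine ⟨_, fun _ => 0, ⟨fun v => ⟨v, by simp⟩, fun v hv => absurd hv (by simp)⟩, rfl⟩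
    obtain ⟨f, hf, hs⟩ := h3
    have := irredundant_lt hG hf
    omega
  omega

lemma lt_two {r : ℝ} (hr : r ∈ ratios) : r < 2 := by
  obtain ⟨V, _, G, hG, hn, hc, rfl⟩ := hr
  have h1 := ir_lt hG hc
  have h2 : 0 < upperBroadcast G := by omega
  rw [div_lt_iff₀ (by exact_mod_cast h2)]
  exact_mod_cast h1

/-- `M(B) = 2`, and the supremum is not attained. -/
theorem result : IsLUB ratios 2 ∧ (2 : ℝ) ∉ ratios := by
  refine ⟨⟨fun r hr => (lt_two hr).le, ?_⟩, fun h => lt_irrefl _ (lt_two h)⟩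
  intro b hb
  by_contra hlt
  push Not at hlt
  -- a large parameter
  obtain ⟨k, hk⟩ := exists_nat_gt (24 / (2 - b))
  have hpos : 0 < 2 - b := by linarith
  set K := k + 2 with hK
  have hm : 0 < K ^ 2 := by positivity
  have hk2 : 2 ≤ K := by omega
  have h1 := HG_ir (m := K ^ 2) (k := K) hm hk2
  have h2 := upper_le (m := K ^ 2) (k := K) hm (by omega)
  have hG := HG_connected (m := K ^ 2) (k := K) hm (by omega)
  have hnt : Nontrivial ((Fin (K ^ 2) × Bool × Fin K) ⊕ Fin K) :=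
    ⟨Sum.inr ⟨0, by omega⟩, Sum.inr ⟨1, by omega⟩, by simp⟩
  have h3 := hb ⟨_, inferInstance, HG (K ^ 2) K, hG, hnt, HG_colorable, rfl⟩
  have h4 : 0 < upperBroadcast (HG (K ^ 2) K) := by
    have := ir_lt hG HG_colorable
    omega
  rw [div_le_iff₀ (by exact_mod_cast h4)] at h3
  have h5 : (2 * (K : ℝ) ^ 2 * (K - 1)) ≤ (upperIrredundance (HG (K ^ 2) K) : ℝ) := by
    have : ((2 * K ^ 2 * (K - 1) : ℕ) : ℝ) ≤ (upperIrredundance (HG (K ^ 2) K) : ℝ) := by
      exact_mod_cast h1
    rw [Nat.cast_mul, Nat.cast_sub (by omega)] at this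
    push_cast at this ⊢
    linarith
  have h6 : (upperBroadcast (HG (K ^ 2) K) : ℝ) ≤ K * (K ^ 2 + (K + 10)) := by
    exact_mod_cast h2
  have hb0 : 0 ≤ b := by
    by_contra hneg
    push Not at hneg
    have h7 : b * (upperBroadcast (HG (K ^ 2) K) : ℝ) < 0 :=
      mul_neg_of_neg_of_pos hneg (by exact_mod_cast h4)
    have h8 : (0 : ℝ) ≤ (upperIrredundance (HG (K ^ 2) K) : ℝ) := Nat.cast_nonneg _
    linarith
  have h7 : 2 * (K : ℝ) ^ 2 * (K - 1) ≤ b * (K * (K ^ 2 + (K + 10))) :=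
    h5.trans (h3.trans (mul_le_mul_of_nonneg_left h6 hb0))
  have hKpos : (2 : ℝ) ≤ K := by exact_mod_cast hk2
  have hKk : (24 : ℝ) < (2 - b) * K := by
    rw [div_lt_iff₀ hpos] at hk
    have : (k : ℝ) ≤ K := by rw [hK]; push_cast; linarith
    nlinarith
  -- divide by `K`
  have h8 : 2 * (K : ℝ) * (K - 1) ≤ b * (K ^ 2 + (K + 10)) := by
    have : (K : ℝ) * (2 * (K : ℝ) * (K - 1)) ≤ K * (b * (K ^ 2 + (K + 10))) := by
      nlinarith
    exact le_of_mul_le_mul_left this (by linarith)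
  nlinarith

end Pool.Agent.Results.MP_1867c4_co.BipartiteRatio
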